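import Pool.Agent.W425.GN.Defs

/-!
# GN-F2: finitely many rational functions are defined on a nonempty Zariski-open set
-/

set_option autoImplicit false

namespace Pool.Agent.W160.GN

open MvPolynomial Pool.Agent.W425.GN

theorem taskF2 : TaskF2 := by
  intro r Z
  obtain ⟨b, hb⟩ := IsLocalization.exist_integer_multiples_of_finset
    (nonZeroDivisors (MvPolynomial (Fin r) ℂ)) Z
  obtain ⟨g, hg⟩ : ∃ g : MvPolynomial (Fin r) ℂ, g = (b : MvPolynomial (Fin r) ℂ) := ⟨_, rfl⟩
  have hg0 : g ≠ 0 := by
    rw [hg]
    exact nonZeroDivisors.ne_zero b.2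
  refine ⟨g, hg0, fun a ha => ?_⟩
  have hga : algebraMap (MvPolynomial (Fin r) ℂ) (FractionRing (MvPolynomial (Fin r) ℂ)) g ≠ 0 := by
    intro h
    exact hg0 ((IsFractionRing.injective (MvPolynomial (Fin r) ℂ)
      (FractionRing (MvPolynomial (Fin r) ℂ))) (by rw [h, map_zero]))
  have hu1 : IsUnit (algebraMap (MvPolynomial (Fin r) ℂ)
      (FractionRing (MvPolynomial (Fin r) ℂ)) g) := isUnit_iff_ne_zero.mpr hga
  have hu2 : IsUnit ((eval a : MvPolynomial (Fin r) ℂ →+* ℂ) g) := isUnit_iff_ne_zero.mpr ha
  refine ⟨Localization.Away g, inferInstance, IsLocalization.Away.lift g hu1,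
    algebraMap _ _, IsLocalization.Away.lift g hu2, ?_, ?_, ?_, ?_⟩
  · have hpow : Submonoid.powers g ≤ nonZeroDivisors (MvPolynomial (Fin r) ℂ) := by
      rw [Submonoid.powers_le]
      exact mem_nonZeroDivisors_of_ne_zero hg0
    unfold IsLocalization.Away.lift
    rw [IsLocalization.lift_injective_iff]
    intro x y
    constructor
    · intro h
      rw [IsLocalization.injective (Localization.Away g) hpow h]
    · intro h
      rw [IsFractionRing.injective (MvPolynomial (Fin r) ℂ)
        (FractionRing (MvPolynomial (Fin r) ℂ)) h]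
  · intro z hz
    obtain ⟨p, hp⟩ := hb z hz
    rw [← hg] at hp
    refine ⟨algebraMap _ _ p * IsLocalization.Away.invSelf g, ?_⟩
    have h1 : (IsLocalization.Away.lift g hu1 : Localization.Away g →+* _)
        (algebraMap _ _ g * IsLocalization.Away.invSelf g) = 1 := by
      rw [IsLocalization.Away.mul_invSelf, map_one]
    rw [map_mul, IsLocalization.Away.lift_eq] at h1
    rw [map_mul, IsLocalization.Away.lift_eq, hp, Algebra.smul_def]
    calc _ = (algebraMap (MvPolynomial (Fin r) ℂ)
          (FractionRing (MvPolynomial (Fin r) ℂ)) g *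
          (IsLocalization.Away.lift g hu1) (IsLocalization.Away.invSelf g)) * z := by ring
      _ = z := by rw [h1, one_mul]
  · intro p
    exact IsLocalization.Away.lift_eq g hu1 p
  · intro p
    exact IsLocalization.Away.lift_eq g hu2 p

end Pool.Agent.W160.GN
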